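import Pool.Agent.Work.MP_b8a914_gt.P.Main

/-! There is a model of ZFC in which the sequential fan embeds in `C_p(X)` for no Menger space `X`,
the ultrafilter number is smaller than the groupwise density number, and some Menger subset of the
Baire space has a square that is not Menger. -/

namespace Pool.Agent.Results.MP_b8a914_gt.ConSquareNotMenger
open Pool.Agent.Lib.ZFModel Pool.Agent.Work.MP_63c7e0_lc Pool.Agent.Work.MP_f50f0f_gt
  Pool.Agent.B8F Pool.Agent.B8P

theorem result : ∃ (M : Type 1) (E : M → M → Prop), IsZFC E ∧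
    (∀ R add mul lt z o ρ X τ C π : M, IsReals E R add mul lt z o → IsOrderTop E R lt ρ →
      IsTop E X τ → (∀ f, E f C ↔ IsCont E f X τ R ρ) → IsPw E C X ρ π →
      IsMengerM E X τ → ¬ FanEmbeds E C π) ∧ ULtG E ∧
    ∃ w P ρ X t A π, IsOmega E w ∧ IsPower E w w P ρ ∧ Sub E X P ∧ IsMengerM E X ρ ∧
      IsTwo E t ∧ (∀ f, E f A ↔ IsFun E f t X) ∧ IsPw E A t ρ π ∧ ¬ IsMengerM E A π :=
  Pool.Agent.B8P.main

end Pool.Agent.Results.MP_b8a914_gt.ConSquareNotMenger
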