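import Pool.Agent.Work.MP_b8a914_gt.C.D

set_option autoImplicit false

open Cardinal Pool.Agent.B8a914

namespace Pool.Agent.Results.MP_b8a914_gt.Criterion

/-- An exact criterion for the existence of a Menger space whose space of continuous real
functions contains the sequential fan. -/
theorem result : List.TFAE [
    ∃ (X : Type) (_ : TopologicalSpace X), T35Space X ∧ IsMenger X ∧ FanInCp X,
    addMenger ≤ ultrafilterNumber,
    addMenger < dominatingNumber ∨ dominatingNumber ≤ ultrafilterNumber,
    ∃ Y : Set (ℕ → ℕ), IsMenger Y ∧ ¬ ∃ K : Set (Set (ℕ → ℕ)), (∀ k ∈ K, IsCompact k) ∧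
      #K < dominatingNumber ∧ Y ⊆ ⋃₀ K,
    ∃ Y : Set ℝ, IsMenger Y ∧ ¬ IsScheepers Y] :=
  criterion

end Pool.Agent.Results.MP_b8a914_gt.Criterion
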