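import Pool.Agent.Work.MP_b8a914_gt.N.Main

/-! Whether the sequential fan embeds in `C_p(X)` for some Tychonoff Menger space `X` is not decided
by ZFC together with near coherence of filters: there is a model with the answer yes and a model
with the answer no. -/

namespace Pool.Agent.Results.MP_b8a914_gt.IndepNCF
open Pool.Agent.Lib.ZFModel Pool.Agent.B8N

theorem result : (∃ (M : Type 1) (E : M → M → Prop), IsZFC E ∧ NCF E ∧ Q1 E) ∧
    ∃ (M : Type 1) (E : M → M → Prop), IsZFC E ∧ NCF E ∧ ¬ Q1 E :=
  ⟨main_yes, main_no⟩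

end Pool.Agent.Results.MP_b8a914_gt.IndepNCF
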